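import Mathlib

/-!
# Tate classes of degree two in a family and one fibre, smooth or degenerate: definitions
-/

set_option autoImplicit false

namespace Pool.Agent.R299.TDF

open TensorProduct

/-- The `F`-subspace of `F ⊗ E` spanned by the rational classes in `A`. -/
def spanF (F : Type) [Field F] [Algebra ℚ F] {E : Type} [AddCommGroup E] [Module ℚ E]
    (A : Submodule ℚ E) : Submodule F (F ⊗[ℚ] E) :=
  Submodule.span F {x | ∃ a ∈ A, x = 1 ⊗ₜ[ℚ] a}

/-- The second cohomology of a smooth projective family `𝒳 → S` over a field `k₀ ⊆ ℂ`, with function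
field `k` of `S` and generic fibre `X`. Here `E = H²(X_t(ℂ), ℚ(1))` for a very general point `t`,
`F ⊗ E = H²(X_{\bar k}, ℚ_ℓ(1))` with `F = ℚ_ℓ`, `G` is the Galois group of `k` (or the fundamental group
of `S`) acting by `ρ`, and `P` is the topological fundamental group of `S(ℂ)`, which acts on `E` by the
monodromy `mon` and is mapped to `G` by `top`. The subspace `NSg` consists of the rational combinations
of the classes of divisors on `X` over the algebraic closure of `k`, and `NS` of those on `X` over `k`
(`NS` is the part of `NSg` fixed by `G`). -/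
structure IsFamily {F G P E : Type} [Field F] [Algebra ℚ F] [Group G] [Group P]
    [AddCommGroup E] [Module ℚ E] (ρ : Representation F G (F ⊗[ℚ] E)) (top : P →* G)
    (mon : Representation ℚ P E) (NSg NS : Submodule ℚ E) : Prop where
  comparison : ∀ γ v, ρ (top γ) (1 ⊗ₜ[ℚ] v) = 1 ⊗ₜ[ℚ] mon γ v
  galois : ∀ g, ∀ v ∈ NSg, ∃ w ∈ NSg, ρ g (1 ⊗ₜ[ℚ] v) = 1 ⊗ₜ[ℚ] w
  fixed : ∀ v, v ∈ NS ↔ v ∈ NSg ∧ ∀ g, ρ g (1 ⊗ₜ[ℚ] v) = 1 ⊗ₜ[ℚ] v

/-- One fibre of the family, smooth or degenerate, over a point `s` with decomposition group `H`.

*Smooth fibre*: `W₀ = E`, `T = H²(X_s(ℂ), ℚ(1))`, `A` are the rational combinations of the classes of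
divisors on `X_s` over `κ(s)`, and `j` is the specialization isomorphism.

*Degenerate fibre*: `s` is a point of a partial compactification of `S` in codimension one, with a
strictly semistable fibre with components `Y_i`; `W₀` is the part of weight `≤ 0` of the limit mixed Hodge
structure, `T` is the sum of the `H²(Y_i, ℚ(1))` and of `H⁰` of the triple intersections,
`A` is the subspace of `T` of the classes of divisors on the `Y_i` over `κ(s)` and of `H⁰`, and `j` is the
composition of `W₀ → Gr₀` and the embedding of `Gr₀` in `T` given by the weight spectral sequence and the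
polarization.

`equivariant`: the group `H` acts on `F ⊗ W₀` and on `F ⊗ T` (by `τ`) and `j` commutes with the action.
`weight`: classes invariant under the monodromy belong to `W₀` (by the theorem of the fixed part they form
a pure sub-Hodge structure). `lefschetz`: if a class invariant under the monodromy is mapped by `j`
to an algebraic class, then it is algebraic on the general fibre (its image in `Gr₀` is a Hodge class,
so it is a Hodge class by the theorem of the fixed part, and algebraic by the theorem of Lefschetz). -/
structure IsFibre {F G P E T : Type} [Field F] [Algebra ℚ F] [Group G] [Group P]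
    [AddCommGroup E] [Module ℚ E] [AddCommGroup T] [Module ℚ T]
    (ρ : Representation F G (F ⊗[ℚ] E)) (mon : Representation ℚ P E) (NSg : Submodule ℚ E)
    (H : Subgroup G) (W₀ : Submodule ℚ E) (τ : Representation F H (F ⊗[ℚ] T))
    (A : Submodule ℚ T) (j : W₀ →ₗ[ℚ] T) : Prop where
  equivariant : ∀ (h : H) (x : F ⊗[ℚ] W₀), ∃ y : F ⊗[ℚ] W₀,
    ρ h (W₀.subtype.lTensor F x) = W₀.subtype.lTensor F y ∧
      j.lTensor F y = τ h (j.lTensor F x)
  weight : ∀ v, (∀ γ, mon γ v = v) → v ∈ W₀
  lefschetz : ∀ v : W₀, (∀ γ, mon γ v = v) → j v ∈ A → (v : E) ∈ NSg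

/-- The Tate conjecture for the classes of divisors: the classes fixed by the group are the
combinations of classes in `A`. -/
def TateConjecture {F G T : Type} [Field F] [Algebra ℚ F] [Group G] [AddCommGroup T]
    [Module ℚ T] (τ : Representation F G (F ⊗[ℚ] T)) (A : Submodule ℚ T) : Prop :=
  ∀ t, (∀ h, τ h t = t) → t ∈ spanF F A

end Pool.Agent.R299.TDF
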