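import Pool.Agent.R299.TDF.Defs

/-!
# The Tate conjecture for divisors from one fibre: proof
-/

set_option autoImplicit false

namespace Pool.Agent.R299.TDF

open TensorProduct

section coords

variable {F : Type} [Field F] [Algebra ℚ F] {E T : Type} [AddCommGroup E] [Module ℚ E]
  [AddCommGroup T] [Module ℚ T]

open Classical in
/-- The coordinates of an element of `F ⊗ E` in a rational basis of `F`. -/
noncomputable def crd (E : Type) [AddCommGroup E] [Module ℚ E] :
    F ⊗[ℚ] E ≃ₗ[ℚ] (Module.Free.ChooseBasisIndex ℚ F →₀ E) :=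
  TensorProduct.equivFinsuppOfBasisLeft (Module.Free.chooseBasis ℚ F)

theorem crd_tmul (c : F) (v : E) (i : Module.Free.ChooseBasisIndex ℚ F) :
    crd (F := F) E (c ⊗ₜ v) i = (Module.Free.chooseBasis ℚ F).repr c i • v := by
  classical
  rw [crd]
  convert TensorProduct.equivFinsuppOfBasisLeft_apply_tmul_apply
    (Module.Free.chooseBasis ℚ F) c v i

theorem crd_lTensor (φ : E →ₗ[ℚ] T) (x : F ⊗[ℚ] E) (i : Module.Free.ChooseBasisIndex ℚ F) :
    crd T (φ.lTensor F x) i = φ (crd E x i) := by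
  induction x using TensorProduct.induction_on with
  | zero => simp
  | tmul c v => rw [LinearMap.lTensor_tmul, crd_tmul, crd_tmul, map_smul]
  | add x y hx hy => rw [map_add, map_add, map_add, Finsupp.add_apply, Finsupp.add_apply, hx, hy,
      map_add]

theorem crd_ext {x y : F ⊗[ℚ] E} (h : ∀ i, crd E x i = crd E y i) : x = y :=
  (crd (F := F) E).injective (Finsupp.ext h)

theorem eq_sum (x : F ⊗[ℚ] E) : x = ∑ i ∈ (crd E x).support,
    (Module.Free.chooseBasis ℚ F i) ⊗ₜ[ℚ] crd E x i := by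
  classical
  apply crd_ext
  intro j
  rw [map_sum, Finsupp.finsetSum_apply]
  have h1 : ∀ i ∈ (crd E x).support, crd E ((Module.Free.chooseBasis ℚ F i) ⊗ₜ[ℚ] crd E x i) j =
      if i = j then crd E x j else 0 := by
    intro i _
    rw [crd_tmul, Module.Basis.repr_self, Finsupp.single_apply]
    split_ifs with h
    · rw [h, one_smul]
    · rw [zero_smul]
  rw [Finset.sum_congr rfl h1, Finset.sum_ite_eq']
  split_ifs with h
  · rfl
  · exact Finsupp.notMem_support_iff.1 h

/-- An element belongs to the span of `A` if and only if its coordinates belong to `A`. -/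
theorem mem_spanF {A : Submodule ℚ E} {x : F ⊗[ℚ] E} :
    x ∈ spanF F A ↔ ∀ i, crd E x i ∈ A := by
  constructor
  · intro hx i
    induction hx using Submodule.closure_induction with
    | zero => simp
    | add x y _ _ hx hy => rw [map_add, Finsupp.add_apply]; exact A.add_mem hx hy
    | smul_mem c x hx =>
      obtain ⟨a, ha, rfl⟩ := hx
      rw [TensorProduct.smul_tmul', crd_tmul]
      exact A.smul_mem _ ha
  · intro h
    rw [eq_sum x]
    refine Submodule.sum_mem _ fun i _ => ?_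
    have : (Module.Free.chooseBasis ℚ F i) ⊗ₜ[ℚ] crd E x i =
        (Module.Free.chooseBasis ℚ F i) • ((1 : F) ⊗ₜ[ℚ] crd E x i) := by
      rw [TensorProduct.smul_tmul', smul_eq_mul, mul_one]
    rw [this]
    exact Submodule.smul_mem _ _ (Submodule.subset_span ⟨_, h i, rfl⟩)

/-- An `F`-linear operator which is rational on the coordinates. -/
theorem crd_of_rational (φ : F ⊗[ℚ] E →ₗ[F] F ⊗[ℚ] E) (x : F ⊗[ℚ] E) (w : Module.Free.ChooseBasisIndex ℚ F → E)
    (h : ∀ i, φ (1 ⊗ₜ[ℚ] crd E x i) = 1 ⊗ₜ[ℚ] w i) (i : Module.Free.ChooseBasisIndex ℚ F)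
    (hw : ∀ i, crd E x i = 0 → w i = 0) :
    crd E (φ x) i = w i := by
  classical
  have h1 : φ x = ∑ i ∈ (crd E x).support, (Module.Free.chooseBasis ℚ F i) ⊗ₜ[ℚ] w i := by
    conv_lhs => rw [eq_sum x]
    rw [map_sum]
    refine Finset.sum_congr rfl fun i _ => ?_
    have h2 : (Module.Free.chooseBasis ℚ F i) ⊗ₜ[ℚ] crd E x i =
        (Module.Free.chooseBasis ℚ F i) • ((1 : F) ⊗ₜ[ℚ] crd E x i) := by
      rw [TensorProduct.smul_tmul', smul_eq_mul, mul_one]
    rw [h2, map_smul, h, TensorProduct.smul_tmul', smul_eq_mul, mul_one]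
  rw [h1, map_sum, Finsupp.finsetSum_apply]
  have h3 : ∀ k ∈ (crd E x).support, crd E ((Module.Free.chooseBasis ℚ F k) ⊗ₜ[ℚ] w k) i =
      if k = i then w i else 0 := by
    intro k _
    rw [crd_tmul, Module.Basis.repr_self, Finsupp.single_apply]
    split_ifs with h
    · rw [h, one_smul]
    · rw [zero_smul]
  rw [Finset.sum_congr rfl h3, Finset.sum_ite_eq']
  split_ifs with h4
  · rfl
  · exact (hw i (Finsupp.notMem_support_iff.1 h4)).symm

end coords

theorem main {F G P E T : Type} [Field F] [Algebra ℚ F] [Group G] [Group P]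
    [AddCommGroup E] [Module ℚ E] [AddCommGroup T] [Module ℚ T]
    {ρ : Representation F G (F ⊗[ℚ] E)} {top : P →* G} {mon : Representation ℚ P E}
    {NSg NS : Submodule ℚ E} (hfam : IsFamily ρ top mon NSg NS) {H : Subgroup G}
    {W₀ : Submodule ℚ E} {τ : Representation F H (F ⊗[ℚ] T)} {A : Submodule ℚ T}
    {j : W₀ →ₗ[ℚ] T} (hfib : IsFibre ρ mon NSg H W₀ τ A j) (hT : TateConjecture τ A)
    {x : F ⊗[ℚ] E} (hP : ∀ γ, ρ (top γ) x = x) (hH : ∀ h ∈ H, ρ h x = x) : x ∈ spanF F NSg := by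
  -- the coordinates are invariant under the monodromy
  have h1 : ∀ i γ, mon γ (crd E x i) = crd E x i := by
    intro i γ
    have h2 := crd_of_rational (ρ (top γ)) x (fun i => mon γ (crd E x i))
      (fun i => hfam.comparison γ _) i (fun i h => by rw [h, map_zero])
    rw [hP γ] at h2
    exact h2.symm
  -- `x` comes from `F ⊗ W₀`
  have hW : ∀ i, crd E x i ∈ W₀ := fun i => hfib.weight _ fun γ => h1 i γ
  obtain ⟨x', hx'⟩ : ∃ x' : F ⊗[ℚ] W₀, W₀.subtype.lTensor F x' = x := by
    refine ⟨∑ i ∈ (crd E x).support, (Module.Free.chooseBasis ℚ F i) ⊗ₜ[ℚ] ⟨crd E x i, hW i⟩, ?_⟩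
    rw [map_sum]
    conv_rhs => rw [eq_sum x]
    refine Finset.sum_congr rfl fun i _ => ?_
    rw [LinearMap.lTensor_tmul]; rfl
  have hcrd : ∀ i, (crd W₀ x' i : E) = crd E x i := by
    intro i
    rw [← hx', crd_lTensor]; rfl
  have hinj : Function.Injective (W₀.subtype.lTensor F) := by
    intro a b hab
    apply crd_ext
    intro i
    apply Subtype.ext
    have := congrArg (fun z => crd E z i) hab
    simp only [crd_lTensor] at this
    exact this
  -- the image in `F ⊗ T` is fixed by `H`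
  have hfix : ∀ h : H, τ h (j.lTensor F x') = j.lTensor F x' := by
    intro h
    obtain ⟨y, hy1, hy2⟩ := hfib.equivariant h x'
    rw [hx', hH h.1 h.2, ← hx'] at hy1
    rw [← hy2, hinj hy1]
  have h3 := mem_spanF.1 (hT _ hfix)
  rw [mem_spanF]
  intro i
  have h4 := h3 i
  rw [crd_lTensor] at h4
  have h5 := hfib.lefschetz (crd W₀ x' i) (fun γ => by rw [hcrd i]; exact h1 i γ) h4
  rwa [hcrd i] at h5

theorem main_fixed {F G P E : Type} [Field F] [Algebra ℚ F] [Group G] [Group P]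
    [AddCommGroup E] [Module ℚ E]
    {ρ : Representation F G (F ⊗[ℚ] E)} {top : P →* G} {mon : Representation ℚ P E}
    {NSg NS : Submodule ℚ E} (hfam : IsFamily ρ top mon NSg NS) {x : F ⊗[ℚ] E}
    (hx : x ∈ spanF F NSg) (hG : ∀ g, ρ g x = x) : x ∈ spanF F NS := by
  rw [mem_spanF] at hx ⊢
  intro i
  rw [hfam.fixed]
  refine ⟨hx i, fun g => ?_⟩
  have h1 : ∀ i, ∃ w, w ∈ NSg ∧ ρ g (1 ⊗ₜ[ℚ] crd E x i) = 1 ⊗ₜ[ℚ] w := by
    intro i
    obtain ⟨w, hw, h⟩ := hfam.galois g _ (hx i)
    exact ⟨w, hw, h⟩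
  choose w hw hwe using h1
  have hone : ∀ v v' : E, (1 : F) ⊗ₜ[ℚ] v = 1 ⊗ₜ[ℚ] v' → v = v' := by
    intro v v' h
    have h1 : (1 : F) ≠ 0 := one_ne_zero
    obtain ⟨k, hk⟩ : ∃ k, (Module.Free.chooseBasis ℚ F).repr (1 : F) k ≠ 0 := by
      by_contra hcon
      push Not at hcon
      exact h1 ((Module.Free.chooseBasis ℚ F).repr.injective (by
        rw [map_zero]; exact Finsupp.ext hcon))
    have h2 := congrArg (fun z => crd E z k) h
    simp only [crd_tmul] at h2
    exact smul_right_injective E hk h2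
  have h2 := crd_of_rational (ρ g) x w hwe i (fun i h => by
    have h3 := hwe i
    rw [h, TensorProduct.tmul_zero, map_zero] at h3
    have h4 : (1 : F) ⊗ₜ[ℚ] (0 : E) = 1 ⊗ₜ[ℚ] w i := by rw [TensorProduct.tmul_zero]; exact h3
    exact (hone _ _ h4).symm)
  rw [hG g] at h2
  rw [hwe i, ← h2]

end Pool.Agent.R299.TDF
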